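import Pool.Agent.H78.SelfInv

namespace Pool.Agent.Results.MP_e6e7b2_al.Both

open Pool.Agent.H78.SelfInv

/-- Some self-inverting formal power series is not Hessian nilpotent, while every self-inverting
polynomial is. -/
theorem result :
    (∃ P : MvPowerSeries (Fin 3) ℂ, SelfInverting P ∧ ¬ IsNilpotent (Hes P)) ∧
    ∀ (n : ℕ) (P : MvPolynomial (Fin n) ℂ), SelfInverting (P : MvPowerSeries (Fin n) ℂ) →
      IsNilpotent (Hes (P : MvPowerSeries (Fin n) ℂ)) :=
  ⟨⟨_, selfInv, not_nil⟩, fun _ P h => poly_true P h⟩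

end Pool.Agent.Results.MP_e6e7b2_al.Both
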